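import Pool.Agent.H79.RD.Targets

namespace Pool.Agent.H79.RD

open Finset

theorem pf_RS : T_AL → T_AG → T_LB → T_FS → T_RS := by
  intro hAL hAG hLB hFS V _ N b k g a a0 D L m R φ Forb z0 C d p z Rv St A evs
    hφ hg ha0 hL hDm hPE hPN hst hact hwide
  classical
  -- the two sets of blocks
  set W : Finset V := vars C with hW
  have hWRv : W ⊆ Rv := by
    intro u hu
    obtain ⟨l, hl, rfl⟩ := Finset.mem_image.mp hu
    exact hst.vrs l hl
  have hunrmono : ∀ i, unr φ Rv i ⊆ unr φ W i := by
    intro i j hj
    simp only [unr, Finset.mem_filter, Finset.mem_univ, true_and] at hj ⊢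
    exact fun h => hj (hWRv h)
  obtain ⟨St', hWSt, hActSt, hstu⟩ := hFS V N b g φ hφ hg W
  set B1 : Finset (Fin N) := Act φ g W with hB1
  set B2 : Finset (Fin N) := Finset.univ.filter (fun i => (unr φ W i).card < 2 * g) with hB2
  have hB12 : B1 ⊆ B2 := by
    intro i hi
    simp only [hB1, Act, Finset.mem_filter, Finset.mem_univ, true_and] at hi
    simp only [hB2, Finset.mem_filter, Finset.mem_univ, true_and]
    omega
  have hB2c : B2.card < a0 := by
    unfold Wide at hwide
    exact not_le.mp hwide
  have hB1Act : B1 ⊆ Act φ g Rv := by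
    intro i hi
    simp only [hB1, Act, Finset.mem_filter, Finset.mem_univ, true_and] at hi ⊢
    exact lt_of_le_of_lt (Finset.card_le_card (hunrmono i)) hi
  have hLB' := hLB V N b g a a0 φ Rv St hφ hst.stc hst.stu hact
  rw [← hL] at hLB'
  have hpot : d + (p + 1) * L ≤ D := by
    have h1 := hst.pot
    have h2 : (p + 1) * L = p * L + L := by ring
    omega
  have hp1 : p + 1 < m := by
    have h1 : (p + 1) * L < m * L := by
      calc (p + 1) * L ≤ d + (p + 1) * L := Nat.le_add_left _ _
        _ ≤ D := hpot
        _ < m * L := hDm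
    exact lt_of_mul_lt_mul_right h1 (Nat.zero_le L)
  -- the new phase
  set A1 : ℕ → Finset (Fin N) := Function.update A (p + 1) B1 with hA1
  have hA1c : ∀ q, (A1 q).card ≤ a := by
    intro q
    by_cases hq : q = p + 1
    · subst hq
      rw [hA1, Function.update_self]
      exact le_trans (Finset.card_le_card hB12) (le_trans hB2c.le ha0)
    · rw [hA1, Function.update_of_ne hq]
      exact hst.cardA q
  have hA1p : A1 (p + 1) = B1 := by rw [hA1, Function.update_self]
  have hSat1 : Sat Forb (bv φ z) (A1 (p + 1)) := by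
    rw [hA1p]
    intro σ hσ
    exact hst.sat σ (fun j => hB1Act (hσ j))
  have hHist1 : Hist Forb A1 (bv φ z0) (bv φ z) (p + 1) evs := by
    obtain ⟨h1, h2, h3, h4, h5⟩ := hst.hist
    refine ⟨h1, ?_, h3, h4, h5⟩
    intro e he
    obtain ⟨hep, hes⟩ := h2 e he
    refine ⟨by omega, ?_⟩
    have : A1 e.p = A e.p := by
      rw [hA1, Function.update_of_ne (by omega)]
    rw [this]
    exact hes
  -- the sets U
  have hU : ∀ i : Fin N, ∃ U : Finset (Fin b), i ∈ B2 \ B1 → (U ⊆ unr φ W i ∧ U.card = g) := by
    intro i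
    by_cases hi : i ∈ B2 \ B1
    · have h1 : g ≤ (unr φ W i).card := by
        have := (Finset.mem_sdiff.mp hi).2
        simp only [hB1, Act, Finset.mem_filter, Finset.mem_univ, true_and, not_lt] at this
        exact this
      obtain ⟨U, hU1, hU2⟩ := Finset.exists_subset_card_eq h1
      exact ⟨U, fun _ => ⟨hU1, hU2⟩⟩
    · exact ⟨∅, fun h => absurd h hi⟩
  choose U hU using hU
  have hdisj : Disjoint (A1 (p + 1)) (B2 \ B1) := by
    rw [hA1p]
    exact Finset.disjoint_sdiff
  have hunion : B1 ∪ (B2 \ B1) = B2 := Finset.union_sdiff_of_subset hB12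
  have hcardU : (A1 (p + 1) ∪ (B2 \ B1)).card ≤ a := by
    rw [hA1p, hunion]
    exact le_trans hB2c.le ha0
  obtain ⟨ζ', evs', hz1, hz2, hH', hS'⟩ := hAL N b k a g R m (p + 1) Forb A1 (bv φ z0) (bv φ z) evs
    (B2 \ B1) U hPE hPN hp1 hA1c hHist1 hSat1 hdisj hcardU (fun i hi => (hU i hi).2)
  have hupd : Function.update A1 (p + 1) (A1 (p + 1) ∪ (B2 \ B1)) =
      Function.update A (p + 1) B2 := by
    rw [hA1p, hunion, hA1, Function.update_idem]
  rw [hupd] at hH'
  rw [hA1p, hunion] at hS'
  obtain ⟨z', hbv, hoff⟩ := hAG V N b φ hφ z ζ'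
  have hkey : ∀ u ∈ W, z' u = z u := by
    intro u hu
    by_cases hblk : ∃ i j, u = φ i j
    · obtain ⟨i, j, rfl⟩ := hblk
      have e1 : z' (φ i j) = ζ' i j := by
        have := congrFun (congrFun hbv i) j
        exact this
      have e2 : z (φ i j) = bv φ z i j := rfl
      rw [e1, e2]
      by_cases hi : i ∈ B2 \ B1
      · apply hz2 i hi j
        intro hj
        have := (hU i hi).1 hj
        simp only [unr, Finset.mem_filter, Finset.mem_univ, true_and] at this
        exact this hu
      · rw [hz1 i hi]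
    · push Not at hblk
      exact hoff u hblk
  refine ⟨z', St', Function.update A (p + 1) B2, evs', ?_, ?_⟩
  · refine
      { fals := ?_, vrs := ?_, sat := ?_, cardA := ?_, ap := ?_, hist := ?_, off := ?_,
        sub := Finset.Subset.refl _, stc := ?_, stu := hstu, pot := ?_ }
    · intro l hl
      have hlW : l.1 ∈ W := Finset.mem_image_of_mem _ hl
      rw [hkey l.1 hlW]
      exact hst.fals l hl
    · intro l hl
      exact hWSt (Finset.mem_image_of_mem _ hl)
    · rw [hActSt, hbv]
      exact hS'
    · intro q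
      by_cases hq : q = p + 1
      · subst hq
        rw [Function.update_self]
        exact le_trans hB2c.le ha0
      · rw [Function.update_of_ne hq]
        exact hst.cardA q
    · rw [Function.update_self, hActSt]
    · rw [hbv]
      exact hH'
    · intro u hu
      rw [hoff u hu]
      exact hst.off u hu
    · rw [hActSt]
      exact hB2c
    · rw [Finset.sdiff_self, Finset.card_empty]
      omega
  · rw [hActSt]
    exact hB2c

end Pool.Agent.H79.RD
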